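import Pool.Agent.W8.ST.Stm

/-!
Project ST, part PerD: a periodic function whose second partial derivative vanishes on the strip
has vanishing partial derivative there.
-/

set_option autoImplicit false

open scoped ContDiff

namespace Pool.Agent.W364.ST

open Pool.Agent.W8.ST

theorem PerD_proof : PerD := by
  intro hC lam sig u hu i h2 x hx
  obtain ⟨hsm, hper, -, -⟩ := hu
  have hu1 : Differentiable ℝ u := hsm.differentiable (by norm_num)
  have hpd : Differentiable ℝ (pd i.succ u) :=
    ((hC u hsm).1 i.succ).differentiable (by norm_num)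
  have hline : ∀ s : ℝ, HasDerivAt (fun t : ℝ => x + t • (Pi.single i.succ (1 : ℝ) : V 4))
      (Pi.single i.succ (1 : ℝ) : V 4) s := by
    intro s
    have h := ((hasDerivAt_id s).smul_const (Pi.single i.succ (1 : ℝ) : V 4)).const_add x
    simpa using h
  have hcomp : ∀ v : V 4 → ℝ, Differentiable ℝ v → ∀ s : ℝ,
      HasDerivAt (fun t : ℝ => v (x + t • (Pi.single i.succ (1 : ℝ) : V 4)))
        (pd i.succ v (x + s • (Pi.single i.succ (1 : ℝ) : V 4))) s := by
    intro v hv s
    exact (hv (x + s • (Pi.single i.succ (1 : ℝ) : V 4))).hasFDerivAt.comp_hasDerivAt s (hline s)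
  have hstrip : ∀ s : ℝ, x + s • (Pi.single i.succ (1 : ℝ) : V 4) ∈ strip 3 := by
    intro s
    show |(x + s • (Pi.single i.succ (1 : ℝ) : V 4)) 0| ≤ 1
    have e : (x + s • (Pi.single i.succ (1 : ℝ) : V 4)) 0 = x 0 := by
      rw [Pi.add_apply, Pi.smul_apply, Pi.single_eq_of_ne (Fin.succ_ne_zero i).symm, smul_zero,
        add_zero]
    rw [e]
    exact hx
  -- the partial derivative is constant on the line
  have hconst : ∀ s : ℝ, pd i.succ u (x + s • (Pi.single i.succ (1 : ℝ) : V 4)) =
      pd i.succ u x := by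
    intro s
    have h0 : ∀ t : ℝ, deriv (fun t : ℝ =>
        pd i.succ u (x + t • (Pi.single i.succ (1 : ℝ) : V 4))) t = 0 := by
      intro t
      rw [(hcomp _ hpd t).deriv]
      exact h2 _ (hstrip t)
    have h1 := is_const_of_deriv_eq_zero (fun t => (hcomp _ hpd t).differentiableAt) h0 s 0
    simpa using h1
  -- the function minus its linear part is constant
  have h0 : ∀ t : ℝ, deriv (fun t : ℝ => u (x + t • (Pi.single i.succ (1 : ℝ) : V 4)) -
      t * pd i.succ u x) t = 0 := by
    intro t
    have h : HasDerivAt (fun t : ℝ => u (x + t • (Pi.single i.succ (1 : ℝ) : V 4)) -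
        t * pd i.succ u x) (pd i.succ u (x + t • (Pi.single i.succ (1 : ℝ) : V 4)) -
          1 * pd i.succ u x) t :=
      (hcomp u hu1 t).sub ((hasDerivAt_id t).mul_const (pd i.succ u x))
    rw [hconst t, one_mul, sub_self] at h
    exact h.deriv
  have hd : Differentiable ℝ (fun t : ℝ => u (x + t • (Pi.single i.succ (1 : ℝ) : V 4)) -
      t * pd i.succ u x) := fun t =>
    ((hcomp u hu1 t).sub ((hasDerivAt_id t).mul_const (pd i.succ u x))).differentiableAt
  have h3 := is_const_of_deriv_eq_zero hd h0 (2 * Real.pi) 0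
  have e1 : x + (2 * Real.pi) • (Pi.single i.succ (1 : ℝ) : V 4) =
      x + Pi.single i.succ (2 * Real.pi) := by
    congr 1
    rw [← Pi.single_smul, smul_eq_mul, mul_one]
  simp only [e1, hper x hx i, zero_smul, add_zero, zero_mul, sub_zero] at h3
  have hpi : (2 * Real.pi) ≠ 0 := by positivity
  have h4 : 2 * Real.pi * pd i.succ u x = 0 := by linarith
  exact (mul_eq_zero.1 h4).resolve_left hpi

end Pool.Agent.W364.ST
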